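import Pool.Agent.T6.H12.TD.RankTower3

/-!
# Tate's conjecture at 3 and constant ranks one and two in towers of elliptic surfaces

Let `k` be a finite field with `|k|` congruent to `2` modulo three, of characteristic different from
2, `k'` an algebraic closure, `K = k(t)`, `F = k'(t)`. We consider elliptic curves
`E : y² = x³ + (3 A x + b)²` (`crvP K 1 A b`) over `K` with the rational point `(0, b)` of order three
and their base changes `E_m : y² = x³ + (3 A(t^m) x + b(t^m))²` by `t ↦ t^m`, where all the prime
factors of `m` are odd and divide `|k| - 1`.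

`TateAtThree k' E` says that all the classes in `V₃ Sel(E / F)` which are fixed by the Galois group
of `k` come from `E(K)`. This is Tate's conjecture for divisors at the prime 3 on the elliptic
surface `S` with generic fibre `E`. It is Q1 for the function field of `S` in the degree `i = 2`,
`j = 1`, `ℓ = 3`: as the divisor classes vanish at the generic point and the weights of the other terms
are not zero, the invariants of `H²(F₀ S̄, ℚ_ℓ(1))` are contained in those of `V_ℓ Br(S̄)`, which is the
quotient of `V_ℓ Sel(E / F)` by the points. `SpannedAtThree k' E M` says that they come from the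
subgroup `M` of `E(K)`.

Theorem.

(1) Let `A`, `α`, `β`, `p` be polynomials, `q = α³ - p β³ - 6 A α β`, `b = p q / 2`. Suppose that `p` and `q`
are irreducible, not associated, of degrees not divisible by three, that the irreducible factors of
`d = b - 4 A³` have odd degree, and one of them has a multiplicity which is not divisible by three.
Let `m` be such that the roots of `p` and `q` are not `ℓ`-th powers in the fields generated by them,
for the primes `ℓ` which divide `m` (`NoPower`). Then the point `P_m` of `E_m` with the coordinates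
`(p α β)(t^m)`, `((p α³ + p² β³) / 2)(t^m)` has infinite order and all the classes in
`V₃ Sel(E_m / F)` fixed by the Galois group come from `ℤ P_m`; in particular Tate's conjecture at 3
holds for `E_m` and its rank is one.

(2) Let `a`, `q`, `r` be polynomials, `p = (a + 1) (q r - a (a + 1)² q - r + a³) + r`,
`6 A = (q - 1) (r - (a + 1)³) - (a + 1)³ + a³`, `b = p q r / 2`, with the same conditions for `p`, `q`,
`r` and `d`. Then the points `P_m`, `Q_m` of `E_m` with first coordinates `(p a)(t^m)`,
`(p q (a + 1))(t^m)` are independent and all the classes in `V₃ Sel(E_m / F)` fixed by the Galois group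
come from `ℤ P_m + ℤ Q_m`; the rank is two.

So for all the layers `m = ℓ ^ j` of the tower `K ⊂ K(t ^ (1 / ℓ)) ⊂ K(t ^ (1 / ℓ²)) ⊂ …` at the same
time the classes come from the points at the bottom, up to torsion, while the geometric genus of the
surfaces tends to infinity.

Examples over the field with eleven elements and `ℓ = 5` (found with a computer, not checked in
Lean): (1) `A = 2 + t + t²`, `α = 6 + t`, `β = 7 + 3 t + 9 t²`, `p = 2 + 6 t + t²`; (2) `a = 8 + 8 t`,
`q = 1 + 2 t`, `r = 7 + 10 t + 9 t²`.

Proof. The families are closed under base change: one replaces the polynomials by `A(t^m)`, …. By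
the theorem of Vahlen and Capelli `p(t^m)`, … remain irreducible, and three does not divide `m`
since it does not divide `|k| - 1`; the irreducible factors of `d(t^m)` have odd degree by Kummer theory
(`Pool.Agent.T6.H12.TD.Base3`). So the descent of `Pool.Agent.T6.H12.TD.Rank3` applies at all layers.
-/

set_option autoImplicit false

namespace Pool.Agent.Results.MP_677d84_ag.ConstantRankTowers

open Polynomial Pool.Agent.TH115.GD Pool.Agent.T6.H12.TD
open scoped Classical

theorem result {k k' K F : Type} [Field k] [Finite k] [Field k'] [Algebra k k'] [Field K]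
    [Algebra k[X] K] [Field F] [Algebra k'[X] F] [IsFractionRing k'[X] F] [Algebra K F]
    (hT : IsTower k k' K F) (h6 : (6 : k) ≠ 0) (hk : Nat.card k % 3 = 2) (m : ℕ) (hm0 : m ≠ 0)
    (hm : ∀ ℓ : ℕ, ℓ.Prime → ℓ ∣ m → ℓ ≠ 2 ∧ ℓ ∣ Nat.card k - 1) :
    (∀ A α β p : k[X], Irreducible p → Irreducible (oneQ A α β p) → ¬ p ∣ oneQ A α β p →
      ¬ 3 ∣ p.natDegree → ¬ 3 ∣ (oneQ A α β p).natDegree →
      oneB A α β p - 4 * A ^ 3 ≠ 0 → OddFactors (oneB A α β p - 4 * A ^ 3) →
      HasFactor3 (oneB A α β p - 4 * A ^ 3) → NoPower m p → NoPower m (oneQ A α β p) →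
      TateAtThree (F := F) k' (crvP K 1 (A.comp (X ^ m)) ((oneB A α β p).comp (X ^ m))) ∧
      ∃ P : Pt (crvP K 1 (A.comp (X ^ m)) ((oneB A α β p).comp (X ^ m))) K,
        HasCoord P (algebraMap k[X] K ((p * α * β).comp (X ^ m)))
          (algebraMap k[X] K ((C 2⁻¹ * (p * α ^ 3 + p ^ 2 * β ^ 3)).comp (X ^ m))) ∧
        (∀ n : ℤ, n • P = 0 → n = 0) ∧
        SpannedAtThree (F := F) k' (crvP K 1 (A.comp (X ^ m)) ((oneB A α β p).comp (X ^ m)))
          (AddSubgroup.zmultiples P)) ∧
    (∀ a q r : k[X], Irreducible (twoP a q r) → Irreducible q → Irreducible r →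
      ¬ twoP a q r ∣ q → ¬ twoP a q r ∣ r → ¬ q ∣ r →
      ¬ 3 ∣ (twoP a q r).natDegree → ¬ 3 ∣ q.natDegree → ¬ 3 ∣ r.natDegree →
      twoB a q r - 4 * twoA a q r ^ 3 ≠ 0 → OddFactors (twoB a q r - 4 * twoA a q r ^ 3) →
      HasFactor3 (twoB a q r - 4 * twoA a q r ^ 3) →
      NoPower m (twoP a q r) → NoPower m q → NoPower m r →
      TateAtThree (F := F) k'
        (crvP K 1 ((twoA a q r).comp (X ^ m)) ((twoB a q r).comp (X ^ m))) ∧
      ∃ P Q : Pt (crvP K 1 ((twoA a q r).comp (X ^ m)) ((twoB a q r).comp (X ^ m))) K,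
        HasCoord P (algebraMap k[X] K ((twoP a q r * a).comp (X ^ m)))
          (algebraMap k[X] K ((C 2⁻¹ * -(twoP a q r * a ^ 3 + twoP a q r ^ 2)).comp (X ^ m))) ∧
        HasCoord Q (algebraMap k[X] K ((twoP a q r * q * (a + 1)).comp (X ^ m)))
          (algebraMap k[X] K ((C 2⁻¹ * (twoP a q r ^ 2 * q +
            twoP a q r * q ^ 2 * (a + 1) ^ 3)).comp (X ^ m))) ∧
        (∀ m n : ℤ, m • P + n • Q = 0 → m = 0 ∧ n = 0) ∧
        SpannedAtThree (F := F) k'
          (crvP K 1 ((twoA a q r).comp (X ^ m)) ((twoB a q r).comp (X ^ m)))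
          (AddSubgroup.closure {P, Q})) := by
  refine ⟨fun A α β p hp hq hpq hp3 hq3 hd od fd np nq => ?_,
    fun a q r hp hq hr hpq hpr hqr hp3 hq3 hr3 hd od fd np nq nr => ?_⟩
  · obtain ⟨P, h1, h2, h3⟩ := rank_one_tower hT h6 hk hp hq hpq hp3 hq3 hd od fd hm0 hm np nq
    exact ⟨tate_of_spanned h3, P, h1, h2, h3⟩
  · obtain ⟨P, Q, h1, h2, h3, h4⟩ :=
      rank_two_tower hT h6 hk hp hq hr hpq hpr hqr hp3 hq3 hr3 hd od fd hm0 hm np nq nr
    exact ⟨tate_of_spanned h4, P, Q, h1, h2, h3, h4⟩

end Pool.Agent.Results.MP_677d84_ag.ConstantRankTowers
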