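import Pool.Agent.T6.H22.FF.Main
import Pool.Agent.R937.PZ.Mot

/-!
# The Tate conjecture for function fields of varieties dominated by abelian varieties of dimension at most
# five, or by products of elliptic curves and abelian surfaces

`Homology Ω V` are data of motivic homology `M X a b = H_a^M(X, ℚ(b)) = CH_b(X, a - 2 b) ⊗ ℚ` and of
`ℓ`-adic homology `E X a b = H_a(X̄, ℚ_ℓ(b))` (coefficients extended to `Ω`) of schemes `X : V` of finite
type over a finite field `F`, with the Frobenius and the regulator. For an integral scheme `X` of
dimension `d`, `Generic T` are data of the cohomology of its generic point: the groups
`G.E (2 d - i) (d - j) = H^i(F_0 X̄, ℚ_ℓ(j))`, the direct limit (`IsLimit`) of the groups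
`H^i_BM(Ū, ℚ_ℓ(j)) = E U (2 d - i) (d - j)` of the nonempty open subschemes `U` of `X`, the groups
`G.M (2 d - i) (d - j) = CH^j(Spec F(X), 2 j - i) ⊗ ℚ`, and the cycle class map `G.reg`.

`FunctionFieldTate G d i j` is the assertion of the problem for `X`, `i` and `j`: all invariant classes in
`H^i(F_0 X̄, ℚ_ℓ(j))` are combinations of images of elements of `CH^j(Spec F(X), 2 j - i)` (we do not need
the larger group `CH^j(Spec F̄(X), 2 j - i)`).

An abelian variety over the field with `p ^ a` elements is modelled by `RedAV` (Honda, Tate): a finite
product of CM types `(E i, Φ i)` with Weil numbers `π i ∈ E i` that satisfy the formula of Shimura and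
Taniyama. We consider (`IsGoodAVP`)

* all abelian varieties of dimension at most five;
* the abelian varieties that are isogenous, over an algebraic closure, to a product of a supersingular
  abelian variety of any dimension and of abelian varieties of dimension at most three (any number, any
  multiplicity), such that any two factors of dimension three whose CM fields have the same Galois
  closure satisfy one of the following: their fields are Galois over `ℚ`; one of them is supersingular;
  they are isogenous; neither of them is ordinary and their `p`-ranks are not `{1, 2}`.

Let `𝒢` (`Generated`) be the smallest class of schemes that contains these abelian varieties, that is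
closed under direct summands of finite sums of twists of motives, and that contains all of a closed
subscheme `Z` of `X`, `X` and `X ∖ Z` if it contains two of them. For example, it contains all products of
curves of genus at most two, their symmetric powers, the Hilbert schemes of points on products of two
such curves, and blow-ups and projective bundles of such varieties along each other.

**Theorem.** Let `X` be a smooth projective variety in `𝒢`, for instance one of the abelian varieties
above, and let `X'` be any variety over `F` with a dominant rational map `X ⇢ X'` (`IsDominatedBy`), for
instance `X' = X`. The Tate conjecture for the function field of `X'` is true in the degree `i` with the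
twist `j`

* for all `i` and `j` with `i ≥ 2 j`, or `i < j`, or `i = j ≤ 2` (in particular for all `j ≤ 1`);
* **for all `i` and `j`, if `dim X' ≤ 2`.**

For `i = 2 j ≥ 2` this is the vanishing of the invariants in `H^(2 j)(F_0 X̄', ℚ_ℓ(j))`, since
`CH^j(Spec F(X')) = 0`: all Tate classes, in all codimensions, are supported on divisors. For `i = j = 2` all
invariant classes in `H^2(F_0 X̄', ℚ_ℓ(2))` come from `K_2(F(X'))`. The remaining cases, where
`3 ≤ i ≤ 2 j - 1` and `j ≤ i`, involve the cohomology of arbitrary subvarieties of `X`.

The proof: the conjecture of Tate and Beilinson for `X` (`TB`) is known by the starting files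
(`Pool/Agent/R937/PZ`). The complement `Z`
of an open subscheme `U` of `X` is arbitrary. If `i = 2 j` the boundary of an invariant class in
`H_(i - 1)(Z)`, which has positive weights, is zero, and the invariant classes lift to invariant classes on
`X` since the eigenvalue one is semisimple there. If `i = j = 2` the boundary is a combination of units on
`Z`, and their images in `H^3_M(X, ℚ(2)) = CH^2(X, 1) ⊗ ℚ` are zero by the conjecture of Parshin for `X`; so
the boundary is the one of an element of `CH^2(U, 2)`. The properties of the cohomology of the generic point
that are used (`IsGenericPoint`) are well known: the localisation sequences, weights (Deligne), and Kummer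
theory for the invertible functions on `Z` and `U`. The properties of cycles on the abelian varieties that
are used are in `IsChowS` and `IsMotivic`: Poincaré duality, formal properties of correspondences, the
nilpotence of homologically trivial correspondences (Kimura), the operation of the Frobenius endomorphism
on higher Chow groups, the vanishing of the higher rational `K`-groups of a finite field (Quillen), and the
algebraicity of the classes in `AlgS`. (theorems of Tate, Markman and Ramón Marí)
-/

set_option autoImplicit false

namespace Pool.Agent.Results.MP_677d84_ag.DominatedBySmallAbelian

open Pool.Agent.W495.TA Pool.Agent.W495.FM Pool.Agent.R937.PG Pool.Agent.T6.H22.FF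

/-- **The Tate conjecture for the function fields of the varieties `X'` that are dominated by a smooth
projective variety `X` in the class generated by the abelian varieties above.** -/
theorem result (p : ℕ) [Fact p.Prime] (ν : PadicAlgCl p ≃+* ℂ) (Ω : Type) [Field Ω]
    [IsAlgClosed Ω] [CharZero Ω] (V : Type) (T : Homology Ω V) (hT : IsHomology T) (X : V)
    (hX : Generated T (IsGoodAbelianP p ν T) X) (d d' : ℤ) (G G' : Generic T)
    (hG : IsGenericPoint X d G) (hG' : IsDominatedBy G' G d' d) (hd : VanishesAbove G' d') (i j : ℤ)
    (hij : 2 * j ≤ i ∨ i < j ∨ (i = j ∧ j ≤ 2) ∨ d' ≤ 2) : FunctionFieldTate G' d' i j :=
  tate_dominated hT (tb_goodP hT hX) hG hG' hd hij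

end Pool.Agent.Results.MP_677d84_ag.DominatedBySmallAbelian
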