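import Pool.Agent.T6.H22.FF.Main
import Pool.Agent.T6.H22.DI.Main

/-!
# The Tate conjecture for function fields of varieties dominated by abelian varieties of arbitrary
# dimension with isolated residue degrees

`Homology Ω V` are data of motivic homology `M X a b = H_a^M(X, ℚ(b)) = CH_b(X, a - 2 b) ⊗ ℚ` and of
`ℓ`-adic homology `E X a b = H_a(X̄, ℚ_ℓ(b))` (coefficients extended to `Ω`) of schemes `X : V` of finite
type over a finite field `F`, with the Frobenius and the regulator. For an integral scheme `X` of
dimension `d`, `Generic T` are data of the cohomology of its generic point: the groups
`G.E (2 d - i) (d - j) = H^i(F_0 X̄, ℚ_ℓ(j))`, the direct limit (`IsLimit`) of the groups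
`H^i_BM(Ū, ℚ_ℓ(j)) = E U (2 d - i) (d - j)` of the nonempty open subschemes `U` of `X`, the groups
`G.M (2 d - i) (d - j) = CH^j(Spec F(X), 2 j - i) ⊗ ℚ`, and the cycle class map `G.reg`.

`FunctionFieldTate G d i j` is the assertion of the problem for `X`, `i` and `j`: all invariant classes in
`H^i(F_0 X̄, ℚ_ℓ(j))` are combinations of images of elements of `CH^j(Spec F(X), 2 j - i)` (we do not need
the larger group `CH^j(Spec F̄(X), 2 j - i)`).

An abelian variety over a finite field is modelled by `RedAV`: by Honda and Tate it is given, up to
isogeny over an algebraic closure, by CM types `(E i, Φ i)` and Weil numbers `π i ∈ E i` with the formula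
of Shimura and Taniyama. A tower `Z` (`IsIsolatedTowerOf`) is obtained from factors of dimension at most
three whose CM fields are Galois over `ℚ` or have different Galois closures, for instance any elliptic
curves, by adding successively factors of **arbitrary dimension** and with **arbitrary Newton polygon**
such that some prime number `ℓ` is unramified in the CM field `E i` of the new factor and exactly one prime
ideal of `E i` over `ℓ` has a residue degree divisible by `2 ^ (k + 1)`, and this residue degree is
`2 ^ (k + 1)` (`IsIsolated`; by the theorem of Chebotarev all CM fields of degree `2 g` whose Galois group
is as large as possible have this property), if for all previous factors `j` the degree of `E j` is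
smaller than `2 ^ (k + 1)`, or `ℓ` is unramified in `E j` and `2 ^ (k + 1)` does not divide any residue
degree of `ℓ` in `E j` (`IsThin`).

Let `𝒢` (`Generated`) be the smallest class of schemes that contains the abelian varieties that are, over
an algebraic closure, isogenous to products of powers of the factors of a tower and supersingular
abelian varieties (`IsIsolatedTowerAbelian`), that is closed under direct summands of finite sums of twists
of motives, and that contains all of a closed subscheme `Z` of `X`, `X` and `X ∖ Z` if it contains two of
them.

**Theorem.** Let `X` be a smooth projective variety in `𝒢`, for instance one of the abelian varieties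
above, and let `X'` be any variety over `F` with a dominant rational map `X ⇢ X'` (`IsDominatedBy`), for
instance `X' = X`. The Tate conjecture for the function field of `X'` is true in the degree `i` with the
twist `j`

* for all `i` and `j` with `i ≥ 2 j`, or `i < j`, or `i = j ≤ 2` (in particular for all `j ≤ 1`);
* **for all `i` and `j`, if `dim X' ≤ 2`.**

For `i = 2 j ≥ 2` this is the vanishing of the invariants in `H^(2 j)(F_0 X̄', ℚ_ℓ(j))`, since
`CH^j(Spec F(X')) = 0`: all Tate classes, in all codimensions, are supported on divisors. For `i = j = 2` all
invariant classes in `H^2(F_0 X̄', ℚ_ℓ(2))` come from `K_2(F(X'))`. The remaining cases, where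
`3 ≤ i ≤ 2 j - 1` and `j ≤ i`, involve the cohomology of arbitrary subvarieties of `X`.

The proof: the conjecture of Tate and Beilinson for `X` (`TB`) is known by `Pool/Agent/T6/H22/DI`: all
multiplicative relations between the Frobenius eigenvalues of a tower come from the small factors at
the bottom and from supersingular factors (`MP_182575_ag.MixedTowers`, `MP_81632f_ag.IsolatedResidueDegrees`). The complement `Z`
of an open subscheme `U` of `X` is arbitrary. If `i = 2 j` the boundary of an invariant class in
`H_(i - 1)(Z)`, which has positive weights, is zero, and the invariant classes lift to invariant classes on
`X` since the eigenvalue one is semisimple there. If `i = j = 2` the boundary is a combination of units on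
`Z`, and their images in `H^3_M(X, ℚ(2)) = CH^2(X, 1) ⊗ ℚ` are zero by the conjecture of Parshin for `X`; so
the boundary is the one of an element of `CH^2(U, 2)`. The properties of the cohomology of the generic point
that are used (`IsGenericPoint`) are well known: the localisation sequences, weights (Deligne), and Kummer
theory for the invertible functions on `Z` and `U`. The properties of cycles on the abelian varieties that
are used are in `IsChow` and `IsMotivic`: Poincaré duality, formal properties of correspondences, the
nilpotence of homologically trivial correspondences (Kimura), the operation of the Frobenius endomorphism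
on higher Chow groups, the vanishing of the higher rational `K`-groups of a finite field (Quillen), and the
algebraicity of the classes in `Alg`.

The class contains abelian varieties of all dimensions, for which the theorem of
`MP_677d84_ag.DominatedBySmallAbelian` (the same for abelian varieties of dimension at most five and products
of small ones) does not apply.
-/

set_option autoImplicit false

namespace Pool.Agent.Results.MP_677d84_ag.DominatedByTowers

open Pool.Agent.W495.TA Pool.Agent.W495.FM Pool.Agent.T6.H22.DI Pool.Agent.T6.H22.FF

/-- **The Tate conjecture for the function fields of the varieties `X'` that are dominated by a smooth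
projective variety `X` in the class generated by the abelian varieties above.** -/
theorem result (p : ℕ) [Fact p.Prime] (ν : PadicAlgCl p ≃+* ℂ) (Ω : Type) [Field Ω]
    [IsAlgClosed Ω] [CharZero Ω] (V : Type) (T : Homology Ω V) (hT : IsHomology T) (X : V)
    (hX : Generated T (IsIsolatedTowerAbelian p ν T) X) (d d' : ℤ) (G G' : Generic T)
    (hG : IsGenericPoint X d G) (hG' : IsDominatedBy G' G d' d) (hd : VanishesAbove G' d') (i j : ℤ)
    (hij : 2 * j ≤ i ∨ i < j ∨ (i = j ∧ j ≤ 2) ∨ d' ≤ 2) : FunctionFieldTate G' d' i j :=
  tate_dominated hT (tb hT hX) hG hG' hd hij

end Pool.Agent.Results.MP_677d84_ag.DominatedByTowers
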