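import Pool.Agent.T6.H12.TD.Tower3

/-!
# The Tate conjecture at 3 for all surfaces over an elliptic surface with a 3-isogeny in a semigroup
of base changes

Let `k` be a finite field of characteristic different from 2 and 3, `k'` an algebraic closure,
`F = k'(t)`, and `E : y² = x³ + D (3 A x + b)²` (`crvP K D A b`) an elliptic curve over `K = k(t)` with a
3-isogeny, `D ∈ k*`, `A`, `b ∈ k[t]`, `d = b - 4 D A³`.

`TateAtThree` says that all the classes in `V₃ Sel(E / F)` which are fixed by the Galois group of `k`
come from `E(K)`. This is Tate's conjecture for divisors at the prime 3 on the elliptic surface `S`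
over the projective line with generic fibre `E`. It is Q1 for the function field of `S` in the degree
`i = 2`, `j = 1`, `ℓ = 3`: as the divisor classes vanish at the generic point and the weights of the
other terms are not zero, the invariants of `H²(F₀ S̄, ℚ_ℓ(1))` are contained in those of
`V_ℓ Br(S̄)`, which is the quotient of `V_ℓ Sel(E / F)` by the points; Q1 says that they vanish.
`SpannedAtThree ... ⊥` is the stronger statement that there are no fixed classes in `V₃ Sel(E / F)`
besides zero (then the rank of `E(K)` is zero as well).

Theorem.

(1) Let `|k|` be congruent to `1` modulo three, and let `E : y² = x³ + (3 A x + b)²` be an elliptic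
curve with a rational point of order three such that all the irreducible factors of `b` and
`d = b - 4 A³` have odd degree and each of them has two different roots in `k'` with multiplicities
not divisible by three. Then for

* all finite extensions `k₁` of `k`,
* all constants `g ∈ k₁*` which are not squares, and
* all polynomials `h` of the semigroup `OddGalois k₁`, which is generated with respect to composition
  by the linear polynomials, the powers `t ^ l` with odd primes `l` which divide `|k₁| - 1`, and the
  polynomials `t ^ p - c ^ (p - 1) t`, `c ∈ k₁*`, `p` the characteristic,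

there are no classes fixed by the Galois group of `k₁` in the `V₃ Sel` of the base change by
`t ↦ h(t)` of the quadratic twist of `E` by `g`, and the Tate conjecture at 3 holds.

So all the Tate classes over the quadratic extension of `k₁` of all these surfaces are already defined
over `k₁`.

(2) Let `D ∈ k*` be arbitrary, and let `m` be such that all its prime factors are odd and divide
`|k| - 1`. The same holds for the base change by `t ↦ t ^ m` of `y² = x³ + D (3 A x + b)²` if the pairs
`(D, b)` and `(-3 D, d)` satisfy the condition `PowerSide`: if `D` is not a square, all the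
irreducible factors of `b` have odd degree and `b` has two different roots with multiplicities not
divisible by three; if `D` is a square, `b` is a constant times `π ^ n`, `π` irreducible, `n`, `m` and
the degree of `π` are not divisible by three, and the roots of `π` are not `ℓ`-th powers in the field
generated by them, for the primes `ℓ` which divide `m` (all the `m = ℓ ^ j` at the same time).

In particular the conjecture holds at all the layers of the towers `K(t ^ (1 / ℓ)) ⊂ K(t ^ (1 / ℓ²)) ⊂ …`
and of the Artin-Schreier towers, in which the geometric genus of the surfaces tends to infinity.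

Proof. By the criterion of `Pool.Agent.T6.H12.TD.FinZero` (a descent with the 3-isogeny, see
`Pool.Agent.Results.MP_8ac872_ag.ThreeIsogenySurfaces`) one has to see that the conditions on `b`
and `d` are inherited by `b(h)` and `d(h)`: if `h(x)` is defined over an extension of odd degree then
`x` is, since the extension of `k₁(h(x))` generated by `x` is a cyclic extension of degree `1` or `l`
(Kummer theory, Artin-Schreier theory) (`Pool.Agent.T6.H12.TD.Base3`); the multiplicities remain the
same at the points where `h` is not ramified, and a root different from zero gives two different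
roots. For (2) one needs in addition the theorem of Vahlen and Capelli (`Pool.Agent.R939.KM.Km`).
-/

set_option autoImplicit false

namespace Pool.Agent.Results.MP_677d84_ag.ThreeIsogenyTowers

open Polynomial Pool.Agent.TH115.GD Pool.Agent.T6.H12.TD

theorem result {k k₁ k' K F : Type} [Field k] [Finite k] [Field k₁] [Algebra k k₁]
    [FiniteDimensional k k₁] [Field k'] [Algebra k k'] [Algebra k₁ k'] [IsScalarTower k k₁ k']
    [Field K] [Algebra k₁[X] K] [Field F] [Algebra k'[X] F] [IsFractionRing k'[X] F] [Algebra K F]
    (hT : IsTower k₁ k' K F) (h6 : (6 : k) ≠ 0) :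
    (Nat.card k % 3 = 1 → ∀ A b : k[X], b ≠ 0 → b - 4 * A ^ 3 ≠ 0 →
      OddFactors b → OddFactors (b - 4 * A ^ 3) → TwoRoots k' b → TwoRoots k' (b - 4 * A ^ 3) →
      ∀ g : k₁, ¬ IsSquare g → ∀ h : k₁[X], OddGalois k₁ h →
        SpannedAtThree (F := F) k' (crvP K g ((A.map (algebraMap k k₁)).comp h)
          ((C g * b.map (algebraMap k k₁)).comp h)) ⊥ ∧
        TateAtThree (F := F) k' (crvP K g ((A.map (algebraMap k k₁)).comp h)
          ((C g * b.map (algebraMap k k₁)).comp h))) ∧
    (∀ (D : k₁) (A b : k₁[X]), D ≠ 0 → b ≠ 0 → b - 4 * C D * A ^ 3 ≠ 0 →
      ∀ m : ℕ, m ≠ 0 → (∀ ℓ : ℕ, ℓ.Prime → ℓ ∣ m → ℓ ≠ 2 ∧ ℓ ∣ Nat.card k₁ - 1) →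
      PowerSide k' m D b → PowerSide k' m (-3 * D) (b - 4 * C D * A ^ 3) →
        SpannedAtThree (F := F) k' (crvP K D (A.comp (X ^ m)) (b.comp (X ^ m))) ⊥ ∧
        TateAtThree (F := F) k' (crvP K D (A.comp (X ^ m)) (b.comp (X ^ m)))) := by
  have : Finite k₁ := Module.finite_of_finite k
  have h6' : (6 : k₁) ≠ 0 := by
    rw [← map_ofNat (algebraMap k k₁) 6]
    exact (_root_.map_ne_zero _).2 h6
  refine ⟨fun hq A b hb hd ob od tb td g hg h hh => ?_,
    fun D A b hD hb hd m hm0 hm sb sd => ?_⟩
  · have h1 := base_twist_zero hT h6 hq hb hd ob od tb td hg hh
    exact ⟨h1, tate_of_spanned h1⟩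
  · have h1 := power_zero hT h6' hD hb hd hm0 hm sb sd
    exact ⟨h1, tate_of_spanned h1⟩

end Pool.Agent.Results.MP_677d84_ag.ThreeIsogenyTowers
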